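import Pool.Agent.H145.Euc.Mut
import Pool.Agent.H145.Euc.D10

/-!
There is a uniform Mandel oriented matroid of rank 4 on 10 elements whose mutation-flip distance
to every Euclidean uniform oriented matroid is at least 2.
-/

namespace Pool.Agent.Results.MP_6b648c_co.MandelFarFromEuclidean

open Pool.Agent.H145.Euc Chirotope

/-- There is a uniform Mandel oriented matroid of rank `2 + 2 = 4` on 10 elements that cannot be
transformed into a Euclidean uniform oriented matroid by at most one mutation-flip. -/
theorem result : ∃ M : Chirotope (Fin 10) 2, M.Uniform ∧ M.Mandel ∧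
    ∀ M' : Chirotope (Fin 10) 2, M'.Uniform → M'.Euclidean → ¬ FlipDistLE 1 M M' := by
  refine ⟨tabO D10.tabN 10 128 (hLook D10.hts 512) (by norm_num) D10.cert,
    tabO_uniform _ _ _ _ _ _, tabO_mandel _ _ _ _ _ (by norm_num) _, ?_⟩
  intro M' hU' hE
  exact far_from_euclidean D10.tabN 10 (by norm_num) _ (fun a b c d => rfl) D10.cycs D10.any_ok
    D10.mut_ok M' hU' hE

end Pool.Agent.Results.MP_6b648c_co.MandelFarFromEuclidean
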